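import Mathlib

set_option autoImplicit false

/-! An infinite permutation class with two different irreducible exact-splittings. -/

namespace Pool.Agent.Results.MP_673260_co.NotUnique

/-- permutations of all lengths -/
abbrev PP := Σ n : ℕ, Equiv.Perm (Fin n)

/-- `f` is an occurrence of `σ` in `π`: the entries of `π` at the positions in the range of the
increasing map `f` are order-isomorphic to `σ` -/
def Occ (σ π : PP) (f : Fin σ.1 ↪o Fin π.1) : Prop :=
  ∀ i j, σ.2 i < σ.2 j ↔ π.2 (f i) < π.2 (f j)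

/-- pattern containment -/
def Le (σ π : PP) : Prop := ∃ f : Fin σ.1 ↪o Fin π.1, Occ σ π f

/-- permutation classes (containing the empty permutation) -/
def IsClass (C : Set PP) : Prop := (⟨0, 1⟩ : PP) ∈ C ∧ ∀ σ π, Le σ π → π ∈ C → σ ∈ C

/-- the merge `A ⊙ B` -/
def merge (A B : Set PP) : Set PP :=
  {π | ∃ σ ∈ A, ∃ τ ∈ B, ∃ (f : Fin σ.1 ↪o Fin π.1) (g : Fin τ.1 ↪o Fin π.1),
    Occ σ π f ∧ Occ τ π g ∧ Set.range g = (Set.range f)ᶜ}

/-- `C = A ⊙ B` is an exact split of `C` -/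
def Splits (C A B : Set PP) : Prop := IsClass A ∧ IsClass B ∧ A ⊂ C ∧ B ⊂ C ∧ C = merge A B

/-- `Splitting C s`: `s` is an irreducible exact-splitting of `C` -/
inductive Splitting : Set PP → Set (Set PP) → Prop
  | leaf (C : Set PP) : (∀ A B, ¬ Splits C A B) → Splitting C {C}
  | node (C A B : Set PP) (s t : Set (Set PP)) : Splits C A B → Splitting A s → Splitting B t →
      Splitting C (s ∪ t)

/-! ### Basic lemmas -/

lemma exists_pat (π : PP) (S : Finset (Fin π.1)) :
    ∃ σ : PP, σ.1 = S.card ∧ ∃ f : Fin σ.1 ↪o Fin π.1, Set.range f = S ∧ Occ σ π f := by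
  let T : Finset (Fin π.1) := S.map π.2.toEmbedding
  have hT : T.card = S.card := Finset.card_map _
  let F : Fin S.card ↪o Fin π.1 := S.orderEmbOfFin rfl
  have hF : ∀ i, F i ∈ S := fun i => Finset.orderEmbOfFin_mem S rfl i
  have hF2 : ∀ i, π.2 (F i) ∈ T := fun i => Finset.mem_map_of_mem π.2.toEmbedding (hF i)
  let s : Fin S.card → Fin S.card := fun i => (T.orderIsoOfFin hT).symm ⟨π.2 (F i), hF2 i⟩
  have hs : Function.Injective s := by
    intro i j hij
    have := (T.orderIsoOfFin hT).symm.injective hij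
    rw [Subtype.mk.injEq] at this
    exact F.injective (π.2.injective this)
  refine ⟨⟨S.card, Equiv.ofBijective s (Finite.injective_iff_bijective.1 hs)⟩, rfl, F, ?_, ?_⟩
  · exact Finset.range_orderEmbOfFin S rfl
  · intro i j
    change s i < s j ↔ _
    change (T.orderIsoOfFin hT).symm _ < (T.orderIsoOfFin hT).symm _ ↔ _
    rw [OrderIso.lt_iff_lt]
    rfl

lemma lift {a b c : ℕ} (f : Fin b ↪o Fin c) (h : Fin a ↪o Fin c)
    (hr : ∀ i, h i ∈ Set.range f) : ∃ e : Fin a ↪o Fin b, ∀ i, f (e i) = h i := by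
  choose e he using hr
  refine ⟨OrderEmbedding.ofStrictMono e ?_, he⟩
  intro i j hij
  rw [← f.lt_iff_lt, he, he]
  exact h.lt_iff_lt.2 hij

lemma Le.refl (π : PP) : Le π π := ⟨RelEmbedding.refl _, fun _ _ => Iff.rfl⟩

lemma Le.trans {ρ σ π : PP} (h1 : Le ρ σ) (h2 : Le σ π) : Le ρ π := by
  obtain ⟨f, hf⟩ := h1
  obtain ⟨g, hg⟩ := h2
  exact ⟨f.trans g, fun i j => (hf i j).trans (hg _ _)⟩

lemma le_of_occ {ρ σ π : PP} {h : Fin ρ.1 ↪o Fin π.1} {f : Fin σ.1 ↪o Fin π.1} (hh : Occ ρ π h)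
    (hf : Occ σ π f) (hr : ∀ i, h i ∈ Set.range f) :
    ∃ e : Fin ρ.1 ↪o Fin σ.1, (∀ i, f (e i) = h i) ∧ Occ ρ σ e := by
  obtain ⟨e, he⟩ := lift f h hr
  refine ⟨e, he, fun i j => ?_⟩
  rw [hh, hf, he, he]

/-- an occurrence using all positions is the permutation itself -/
lemma eq_of_occ {σ π : PP} {f : Fin σ.1 ↪o Fin π.1} (hf : Occ σ π f)
    (hr : Function.Surjective f) : σ = π := by
  obtain ⟨m, σ⟩ := σ
  obtain ⟨n, π⟩ := π
  have hmn : m = n := by
    have := Fintype.card_of_bijective ⟨f.injective, hr⟩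
    simpa using this
  subst hmn
  have hid : ∀ i, f i = i := by
    have h : (fun i : Fin m => (f i : Fin m)) = fun i => i :=
      (StrictMono.range_inj f.strictMono strictMono_id).1 (by
        rw [Set.range_eq_univ.2 hr, Set.range_id])
    exact fun i => congrFun h i
  have h2 : ∀ i j, σ i < σ j ↔ π i < π j := by
    intro i j
    have := hf i j
    simpa [hid] using this
  have h3 : (StrictMono (π ∘ σ.symm)) := by
    intro a b hab
    have := (h2 (σ.symm a) (σ.symm b)).1 (by simpa using hab)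
    exact this
  have h4 : ∀ a, (π ∘ σ.symm) a = a := by
    have h : (π ∘ σ.symm : Fin m → Fin m) = fun i => i :=
      (StrictMono.range_inj h3 strictMono_id).1 (by
        rw [Set.range_eq_univ.2 (π.surjective.comp σ.symm.surjective), Set.range_id])
    exact fun a => congrFun h a
  have h5 : σ = π := by
    ext i
    have := h4 (σ i)
    simp only [Function.comp_apply, Equiv.symm_apply_apply] at this
    rw [this]
  rw [h5]

lemma merge_comm (A B : Set PP) : merge A B = merge B A := by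
  have : ∀ A B : Set PP, merge A B ⊆ merge B A := by
    rintro A B π ⟨σ, hσ, τ, hτ, f, g, hf, hg, hr⟩
    exact ⟨τ, hτ, σ, hσ, g, f, hg, hf, by rw [hr, compl_compl]⟩
  exact Set.Subset.antisymm (this A B) (this B A)

lemma merge_class {A B : Set PP} (hA : IsClass A) (hB : IsClass B) : IsClass (merge A B) := by
  refine ⟨⟨_, hA.1, _, hB.1, RelEmbedding.refl _, RelEmbedding.refl _, fun i => i.elim0,
    fun i => i.elim0, ?_⟩, ?_⟩
  · ext i; exact i.elim0
  · rintro ρ π ⟨h, hh⟩ ⟨σ, hσ, τ, hτ, f, g, hf, hg, hr⟩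
    classical
    obtain ⟨σ', -, f', hf', hσ'⟩ := exists_pat ρ (Finset.univ.filter fun i => h i ∈ Set.range f)
    obtain ⟨τ', -, g', hg', hτ'⟩ := exists_pat ρ (Finset.univ.filter fun i => h i ∈ Set.range f)ᶜ
    refine ⟨σ', ?_, τ', ?_, f', g', hσ', hτ', ?_⟩
    · refine hA.2 σ' σ ?_ hσ
      have h1 : Occ σ' π (f'.trans h) := fun i j => (hσ' i j).trans (hh _ _)
      obtain ⟨e, -, he⟩ := le_of_occ h1 hf (by
        intro i
        have : f' i ∈ Set.range f' := ⟨i, rfl⟩
        rw [hf'] at this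
        simpa using this)
      exact ⟨e, he⟩
    · refine hB.2 τ' τ ?_ hτ
      have h1 : Occ τ' π (g'.trans h) := fun i j => (hτ' i j).trans (hh _ _)
      obtain ⟨e, -, he⟩ := le_of_occ h1 hg (by
        intro i
        have : g' i ∈ Set.range g' := ⟨i, rfl⟩
        rw [hg'] at this
        rw [hr]
        simpa using this)
      exact ⟨e, he⟩
    · rw [hf', hg', Finset.coe_compl]

lemma card_merge {σ τ π : PP} {f : Fin σ.1 ↪o Fin π.1} {g : Fin τ.1 ↪o Fin π.1}
    (hr : Set.range g = (Set.range f)ᶜ) : σ.1 + τ.1 = π.1 := by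
  classical
  have h1 : (Finset.univ.map f.toEmbedding).card = σ.1 := by simp
  have h2 : (Finset.univ.map g.toEmbedding).card = τ.1 := by simp
  have h3 : Finset.univ.map g.toEmbedding = (Finset.univ.map f.toEmbedding)ᶜ := by
    ext i
    have : i ∈ Set.range g ↔ i ∈ (Set.range f)ᶜ := by rw [hr]
    simpa using this
  rw [h3, Finset.card_compl, h1, Fintype.card_fin] at h2
  have : σ.1 ≤ π.1 := by simpa using Fintype.card_le_of_injective f f.injective
  omega

/-- there is only one permutation of length zero -/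
lemma eq_empty {π : PP} (h : π.1 = 0) : π = ⟨0, 1⟩ := by
  obtain ⟨n, π⟩ := π
  simp only at h
  subst h
  congr 1
  exact Subsingleton.elim _ _

lemma eq_one {π : PP} (h : π.1 = 1) : π = ⟨1, 1⟩ := by
  obtain ⟨n, π⟩ := π
  simp only at h
  subst h
  congr 1
  exact Subsingleton.elim _ _

lemma one_mem {A : Set PP} (hA : IsClass A) {π : PP} (hπ : π ∈ A) (h : π.1 ≠ 0) :
    (⟨1, 1⟩ : PP) ∈ A := by
  refine hA.2 _ π ⟨OrderEmbedding.ofStrictMono (fun _ => ⟨0, by omega⟩) ?_, ?_⟩ hπ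
  · intro i j hij
    exact absurd hij (by rw [Subsingleton.elim i j]; exact lt_irrefl _)
  · intro i j
    rw [Subsingleton.elim i j]
    simp

/-- adding any set class on either side -/
lemma subset_merge_right {A B : Set PP} (hA : IsClass A) : B ⊆ merge A B := by
  intro π hπ
  refine ⟨⟨0, 1⟩, hA.1, π, hπ, OrderEmbedding.ofStrictMono (fun i => i.elim0) (fun i => i.elim0),
    RelEmbedding.refl _, fun i => i.elim0, fun _ _ => Iff.rfl, ?_⟩
  ext i
  simp only [Set.mem_range, Set.mem_compl_iff, not_exists]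
  exact ⟨fun _ x => x.elim0, fun _ => ⟨i, rfl⟩⟩

lemma subset_merge_left {A B : Set PP} (hB : IsClass B) : A ⊆ merge A B := by
  rw [merge_comm]
  exact subset_merge_right hB

/-- in an exact split both factors contain the permutation of length one -/
lemma one_mem_left {C A B : Set PP} (h : Splits C A B) : (⟨1, 1⟩ : PP) ∈ A := by
  obtain ⟨hA, hB, hAC, hBC, hC⟩ := h
  by_contra hne
  apply hBC.2
  intro π hπ
  rw [hC] at hπ
  obtain ⟨σ, hσ, τ, hτ, f, g, hf, hg, hr⟩ := hπ
  have h0 : σ.1 = 0 := by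
    by_contra h
    exact hne (one_mem hA hσ h)
  have hsurj : Function.Surjective g := by
    intro i
    have : i ∈ Set.range g := by
      rw [hr]
      rintro ⟨j, -⟩
      rw [h0] at j
      exact j.elim0
    exact this
  rw [← eq_of_occ hg hsurj]
  exact hτ

lemma Splits.symm {C A B : Set PP} (h : Splits C A B) : Splits C B A :=
  ⟨h.2.1, h.1, h.2.2.2.1, h.2.2.1, by rw [merge_comm]; exact h.2.2.2.2⟩

lemma one_mem_right {C A B : Set PP} (h : Splits C A B) : (⟨1, 1⟩ : PP) ∈ B :=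
  one_mem_left h.symm

/-- the permutation `1 ⊕ τ` is in the merge -/
lemma cons_up {A B : Set PP} (hA : (⟨1, 1⟩ : PP) ∈ A) {τ : PP} (hτ : τ ∈ B) (hm : Monotone τ.2) :
    (⟨τ.1 + 1, 1⟩ : PP) ∈ merge A B := by
  have h1 : τ = ⟨τ.1, 1⟩ := by
    refine eq_of_occ (π := ⟨τ.1, 1⟩) (f := RelEmbedding.refl _) (fun i j => ?_) (fun i => ⟨i, rfl⟩)
    have := (hm.strictMono_of_injective τ.2.injective).lt_iff_lt (a := i) (b := j)
    simpa using this
  refine ⟨⟨1, 1⟩, hA, ⟨τ.1, 1⟩, h1 ▸ hτ,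
    OrderEmbedding.ofStrictMono (fun _ => 0) (fun i j hij => ?_),
    (Fin.succOrderEmb _), ?_, ?_, ?_⟩
  · exact absurd hij (by rw [Subsingleton.elim i j]; exact lt_irrefl _)
  · intro i j
    rw [Subsingleton.elim i j]
    simp
  · intro i j
    simp
  · ext i
    simp only [Set.mem_range, Set.mem_compl_iff]
    refine Fin.cases ?_ ?_ i
    · constructor
      · rintro ⟨j, hj⟩
        exact absurd hj (Fin.succ_ne_zero j)
      · intro h
        exact absurd ⟨0, rfl⟩ h
    · intro j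
      simp only [not_exists]
      exact ⟨fun _ _ => (Fin.succ_ne_zero j).symm, fun _ => ⟨j, rfl⟩⟩

/-- the permutation `1 ⊖ τ` is in the merge -/
lemma cons_down {A B : Set PP} (hA : (⟨1, 1⟩ : PP) ∈ A) {τ : PP} (hτ : τ ∈ B)
    (hm : Antitone τ.2) : (⟨τ.1 + 1, Fin.revPerm⟩ : PP) ∈ merge A B := by
  have h1 : τ = ⟨τ.1, Fin.revPerm⟩ := by
    refine eq_of_occ (π := ⟨τ.1, Fin.revPerm⟩) (f := RelEmbedding.refl _) (fun i j => ?_)
      (fun i => ⟨i, rfl⟩)
    have := (hm.strictAnti_of_injective τ.2.injective).lt_iff_gt (a := i) (b := j)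
    simpa using this
  refine ⟨⟨1, 1⟩, hA, ⟨τ.1, Fin.revPerm⟩, h1 ▸ hτ,
    OrderEmbedding.ofStrictMono (fun _ => 0) (fun i j hij => ?_),
    (Fin.succOrderEmb _), ?_, ?_, ?_⟩
  · exact absurd hij (by rw [Subsingleton.elim i j]; exact lt_irrefl _)
  · intro i j
    rw [Subsingleton.elim i j]
    simp
  · intro i j
    simp
  · ext i
    simp only [Set.mem_range, Set.mem_compl_iff]
    refine Fin.cases ?_ ?_ i
    · constructor
      · rintro ⟨j, hj⟩
        exact absurd hj (Fin.succ_ne_zero j)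
      · intro h
        exact absurd ⟨0, rfl⟩ h
    · intro j
      simp only [not_exists]
      exact ⟨fun _ _ => (Fin.succ_ne_zero j).symm, fun _ => ⟨j, rfl⟩⟩

lemma merge_le {A B : Set PP} {π : PP} (h : π ∈ merge A B) :
    ∃ σ ∈ A, ∃ τ ∈ B, Le σ π ∧ Le τ π ∧ σ.1 + τ.1 = π.1 := by
  obtain ⟨σ, hσ, τ, hτ, f, g, hf, hg, hr⟩ := h
  exact ⟨σ, hσ, τ, hτ, ⟨f, hf⟩, ⟨g, hg⟩, card_merge hr⟩

lemma Le.card {σ π : PP} (h : Le σ π) : σ.1 ≤ π.1 := by
  obtain ⟨f, -⟩ := h
  simpa using Fintype.card_le_of_injective f f.injective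

lemma surj_of_card {a b : ℕ} (f : Fin a ↪o Fin b) (h : b ≤ a) : Function.Surjective f := by
  have h1 : a ≤ b := by simpa using Fintype.card_le_of_injective f f.injective
  have h2 : a = b := le_antisymm h1 h
  subst h2
  exact Finite.injective_iff_surjective.1 f.injective

lemma eq_of_le {σ π : PP} (h : Le σ π) (hc : π.1 ≤ σ.1) : σ = π := by
  obtain ⟨f, hf⟩ := h
  exact eq_of_occ hf (surj_of_card f hc)

lemma Le.mono {σ π : PP} (h : Le σ π) (hm : Monotone π.2) : Monotone σ.2 := by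
  obtain ⟨f, hf⟩ := h
  have hm' := hm.strictMono_of_injective π.2.injective
  have : StrictMono σ.2 := by
    intro i j hij
    rw [hf]
    exact hm' (f.lt_iff_lt.2 hij)
  exact this.monotone

lemma Le.anti {σ π : PP} (h : Le σ π) (hm : Antitone π.2) : Antitone σ.2 := by
  obtain ⟨f, hf⟩ := h
  have hm' := hm.strictAnti_of_injective π.2.injective
  have : StrictAnti σ.2 := by
    intro i j hij
    rw [hf]
    exact hm' (f.lt_iff_lt.2 hij)
  exact this.antitone

/-! ### The classes -/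

/-- `g(1)` -/
def G1 : Set PP := {π | π.1 ≤ 1}
/-- `g(12)` -/
def G12 : Set PP := {π | π.1 ≤ 2 ∧ Monotone π.2}
/-- `g(21)` -/
def G21 : Set PP := {π | π.1 ≤ 2 ∧ Antitone π.2}
/-- `g(132,213,231,312)` -/
def G3 : Set PP := {π | π.1 ≤ 3 ∧ (π.1 = 3 → ¬ Monotone π.2 ∧ ¬ Antitone π.2)}
/-- `Av(21)` -/
def Inc : Set PP := {π | Monotone π.2}

lemma class_G1 : IsClass G1 := ⟨Nat.zero_le _, fun _ _ h hπ => h.card.trans hπ⟩
lemma class_G12 : IsClass G12 :=
  ⟨⟨Nat.zero_le _, fun i => i.elim0⟩, fun _ _ h hπ => ⟨h.card.trans hπ.1, h.mono hπ.2⟩⟩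
lemma class_G21 : IsClass G21 :=
  ⟨⟨Nat.zero_le _, fun i => i.elim0⟩, fun _ _ h hπ => ⟨h.card.trans hπ.1, h.anti hπ.2⟩⟩
lemma class_Inc : IsClass Inc := ⟨fun i => i.elim0, fun _ _ h hπ => h.mono hπ⟩
lemma class_G3 : IsClass G3 := by
  refine ⟨⟨Nat.zero_le _, fun h => absurd h (by norm_num)⟩, fun σ π h hπ =>
    ⟨h.card.trans hπ.1, fun h3 => ?_⟩⟩
  have := eq_of_le h (by rw [h3]; exact hπ.1)
  rw [this] at h3 ⊢
  exact hπ.2 h3

/-! ### None of them is exact-splittable -/

lemma mem12 {C A B : Set PP} (h : Splits C A B) : (⟨2, 1⟩ : PP) ∈ C := by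
  rw [h.2.2.2.2]
  exact cons_up (one_mem_left h) (one_mem_right h) (fun i j _ => by rw [Subsingleton.elim i j])

lemma mem21 {C A B : Set PP} (h : Splits C A B) : (⟨2, Fin.revPerm⟩ : PP) ∈ C := by
  rw [h.2.2.2.2]
  exact cons_down (one_mem_left h) (one_mem_right h) (fun i j _ => by rw [Subsingleton.elim i j])

lemma not_mono_rev (n : ℕ) (hn : 2 ≤ n) : ¬ Monotone (Fin.revPerm : Equiv.Perm (Fin n)) := by
  intro h
  have := h (a := ⟨0, by omega⟩) (b := ⟨1, by omega⟩) (by simp [Fin.le_def])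
  simp [Fin.revPerm_apply, Fin.le_def, Fin.val_rev] at this
  omega

lemma not_anti_one (n : ℕ) (hn : 2 ≤ n) : ¬ Antitone (1 : Equiv.Perm (Fin n)) := by
  intro h
  have := h (a := ⟨0, by omega⟩) (b := ⟨1, by omega⟩) (by simp [Fin.le_def])
  simp [Fin.le_def] at this

lemma irr_G1 (A B : Set PP) : ¬ Splits G1 A B := by
  intro h
  have := mem12 h
  simp [G1] at this

lemma irr_G12 (A B : Set PP) : ¬ Splits G12 A B := fun h => not_mono_rev 2 le_rfl (mem21 h).2

lemma irr_G21 (A B : Set PP) : ¬ Splits G21 A B := fun h => not_anti_one 2 le_rfl (mem12 h).2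

lemma irr_Inc (A B : Set PP) : ¬ Splits Inc A B := fun h => not_mono_rev 2 le_rfl (mem21 h)

/-- a permutation of length at most two is monotone or antitone -/
lemma mono_or_anti {σ : PP} (h : σ.1 ≤ 2) : Monotone σ.2 ∨ Antitone σ.2 := by
  by_contra hc
  rw [not_or, not_monotone_not_antitone_iff_exists_lt_lt] at hc
  obtain ⟨a, b, c, hab, hbc, -⟩ := hc
  have h1 := a.2
  have h2 := b.2
  have h3 := c.2
  rw [Fin.lt_def] at hab hbc
  omega

lemma irr_G3 (A B : Set PP) : ¬ Splits G3 A B := by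
  intro h
  have key : ∀ A B : Set PP, Splits G3 A B → ∀ τ ∈ B, τ.1 ≤ 1 := by
    intro A B h τ hτ
    have h1 := one_mem_left h
    by_contra h2
    have h3 : (⟨2, 1⟩ : PP) ∈ B ∨ (⟨2, Fin.revPerm⟩ : PP) ∈ B := by
      obtain ⟨S, hS⟩ : ∃ S : Finset (Fin τ.1), S.card = 2 := by
        obtain ⟨S, -, hS⟩ := Finset.exists_subset_card_eq (s := (Finset.univ : Finset (Fin τ.1)))
          (n := 2) (by simp; omega)
        exact ⟨S, hS⟩
      obtain ⟨σ, hσ, f, -, hf⟩ := exists_pat τ S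
      have hσB : σ ∈ B := h.2.1.2 σ τ ⟨f, hf⟩ hτ
      rw [hS] at hσ
      obtain ⟨m, σ⟩ := σ
      simp only at hσ
      subst hσ
      rcases mono_or_anti (σ := ⟨2, σ⟩) le_rfl with hm | hm
      · left
        have : (⟨2, σ⟩ : PP) = ⟨2, 1⟩ := by
          refine eq_of_occ (f := RelEmbedding.refl _) (fun i j => ?_) (fun i => ⟨i, rfl⟩)
          have := (hm.strictMono_of_injective σ.injective).lt_iff_lt (a := i) (b := j)
          simpa using this
        rwa [← this]
      · right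
        have : (⟨2, σ⟩ : PP) = ⟨2, Fin.revPerm⟩ := by
          refine eq_of_occ (f := RelEmbedding.refl _) (fun i j => ?_) (fun i => ⟨i, rfl⟩)
          have := (hm.strictAnti_of_injective σ.injective).lt_iff_gt (a := i) (b := j)
          simpa using this
        rwa [← this]
    rcases h3 with h3 | h3
    · have h4 := cons_up h1 h3 (fun i j hij => hij)
      rw [← h.2.2.2.2] at h4
      exact (h4.2 rfl).1 (fun i j hij => hij)
    · have h4 := cons_down h1 h3 (fun i j hij => by simpa using hij)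
      rw [← h.2.2.2.2] at h4
      exact (h4.2 rfl).2 (fun i j hij => by simpa using hij)
  have hm : (⟨3, Equiv.swap 0 1⟩ : PP) ∈ G3 := by
    refine ⟨le_rfl, fun _ => ⟨fun h => ?_, fun h => ?_⟩⟩
    · have := h (a := (0 : Fin 3)) (b := (1 : Fin 3)) (by decide)
      revert this
      decide
    · have := h (a := (1 : Fin 3)) (b := (2 : Fin 3)) (by decide)
      revert this
      decide
  have hm2 := hm
  rw [h.2.2.2.2] at hm2
  obtain ⟨σ, hσ, τ, hτ, -, -, hc⟩ := merge_le hm2
  have h1 := key A B h τ hτ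
  have h2 := key B A h.symm σ hσ
  simp only at hc
  omega

/-! ### The two factorisations -/

lemma merge_of_disjoint {A B : Set PP} {π σ τ : PP} {f : Fin σ.1 ↪o Fin π.1}
    {g : Fin τ.1 ↪o Fin π.1} (hf : Occ σ π f) (hg : Occ τ π g) (hσ : σ ∈ A) (hτ : τ ∈ B)
    (hd : ∀ i j, f i ≠ g j) :
    ∃ ρ ∈ merge A B, σ.1 + τ.1 = ρ.1 ∧ Le ρ π := by
  classical
  obtain ⟨ρ, -, h, hr, ho⟩ := exists_pat π (Finset.univ.map f.toEmbedding ∪
    Finset.univ.map g.toEmbedding)
  have hr' : ∀ x, x ∈ Set.range h ↔ x ∈ Set.range f ∨ x ∈ Set.range g := by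
    intro x
    rw [hr]
    simp
  obtain ⟨e1, he1, ho1⟩ := le_of_occ hf ho (fun i => (hr' _).2 (Or.inl ⟨i, rfl⟩))
  obtain ⟨e2, he2, ho2⟩ := le_of_occ hg ho (fun i => (hr' _).2 (Or.inr ⟨i, rfl⟩))
  have hc : Set.range e2 = (Set.range e1)ᶜ := by
    ext x
    constructor
    · rintro ⟨j, rfl⟩ ⟨i, hi⟩
      apply hd i j
      rw [← he1, ← he2, hi]
    · intro hx
      rcases (hr' (h x)).1 ⟨x, rfl⟩ with ⟨i, hi⟩ | ⟨j, hj⟩
      · exfalso
        apply hx
        refine ⟨i, h.injective ?_⟩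
        rw [he1, hi]
      · refine ⟨j, h.injective ?_⟩
        rw [he2, hj]
  exact ⟨ρ, ⟨σ, hσ, τ, hτ, e1, e2, ho1, ho2, hc⟩, card_merge hc, ⟨h, ho⟩⟩

lemma one_occ {σ π : PP} (hσ : σ.1 = 1) (f : Fin σ.1 ↪o Fin π.1) : Occ σ π f := by
  intro i j
  have : i = j := by
    apply Fin.ext
    have h1 := i.2
    have h2 := j.2
    omega
  rw [this]
  simp

lemma sub_iter (D : Set PP) (k : ℕ) : D ⊆ (merge G1)^[k] D := by
  induction k with
  | zero => exact fun _ h => h
  | succ k ih =>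
    rw [Function.iterate_succ_apply']
    exact ih.trans (subset_merge_right class_G1)

/-- if all but at most `k` entries of `π` form a pattern of `D` then `π` is in the merge of `D`
with `k` copies of `g(1)` -/
lemma peel (D : Set PP) : ∀ (k : ℕ) (π σ : PP), σ ∈ D → Le σ π → π.1 ≤ σ.1 + k →
    π ∈ (merge G1)^[k] D := by
  intro k
  induction k with
  | zero =>
    intro π σ hσ hle hk
    rw [← eq_of_le hle hk]
    exact hσ
  | succ k ih =>
    intro π σ hσ hle hk
    by_cases hs : π.1 ≤ σ.1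
    · rw [← eq_of_le hle hs]
      exact sub_iter D _ hσ
    · obtain ⟨f, hf⟩ := hle
      obtain ⟨x, hx⟩ : ∃ x, x ∉ Set.range f := by
        by_contra hc
        push Not at hc
        apply hs
        simpa using Fintype.card_le_of_surjective f hc
      obtain ⟨ρ, hρ, g, hg, ho⟩ := exists_pat π ({x}ᶜ : Finset (Fin π.1))
      obtain ⟨ω, hω, u, hu, hou⟩ := exists_pat π ({x} : Finset (Fin π.1))
      rw [Finset.card_singleton] at hω
      rw [Finset.card_compl, Finset.card_singleton, Fintype.card_fin] at hρ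
      obtain ⟨e, -, he⟩ := le_of_occ hf ho (by
        intro i
        rw [hg]
        simp only [Finset.coe_compl, Finset.coe_singleton, Set.mem_compl_iff, Set.mem_singleton_iff]
        rintro rfl
        exact hx ⟨i, rfl⟩)
      rw [Function.iterate_succ_apply']
      refine ⟨ω, hω.le, ρ, ih ρ σ hσ ⟨e, he⟩ (by omega), u, g, hou, ho, ?_⟩
      rw [hu, hg, Finset.coe_compl]

/-- all permutations of length at most 6, except the two monotone ones of length 6 -/
def E : Set PP := {π | π.1 ≤ 6 ∧ (π.1 = 6 → ¬ Monotone π.2 ∧ ¬ Antitone π.2)}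

lemma exists_pat_card (π : PP) (U : Finset (Fin π.1)) (k : ℕ) (hk : k ≤ U.card) :
    ∃ σ : PP, σ.1 = k ∧ ∃ f : Fin σ.1 ↪o Fin π.1, (∀ i, f i ∈ U) ∧ Occ σ π f := by
  obtain ⟨S, hSU, hS⟩ := Finset.exists_subset_card_eq hk
  obtain ⟨σ, hσ, f, hr, hf⟩ := exists_pat π S
  refine ⟨σ, hσ.trans hS, f, fun i => hSU ?_, hf⟩
  have : f i ∈ Set.range f := ⟨i, rfl⟩
  rw [hr] at this
  exact this

lemma mem_range_iter {k : ℕ} {D : Set PP} {π : PP} (h : π ∈ (merge G1)^[k] D) :
    ∃ σ ∈ D, Le σ π ∧ π.1 ≤ σ.1 + k := by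
  induction k generalizing π with
  | zero => exact ⟨π, h, Le.refl _, le_rfl⟩
  | succ k ih =>
    rw [Function.iterate_succ_apply'] at h
    obtain ⟨ω, hω, ρ, hρ, -, hle, hc⟩ := merge_le h
    obtain ⟨σ, hσ, hle2, hc2⟩ := ih hρ
    have : ω.1 ≤ 1 := hω
    exact ⟨σ, hσ, hle2.trans hle, by omega⟩

lemma iter_class {D : Set PP} (hD : IsClass D) (k : ℕ) : IsClass ((merge G1)^[k] D) := by
  induction k with
  | zero => exact hD
  | succ k ih =>
    rw [Function.iterate_succ_apply']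
    exact merge_class class_G1 ih

lemma fact1 : (merge G1)^[3] G3 = E := by
  apply Set.Subset.antisymm
  · intro π hπ
    obtain ⟨σ, hσ, hle, hc⟩ := mem_range_iter hπ
    refine ⟨?_, fun h6 => ?_⟩
    · have := hσ.1; omega
    · have h3 : σ.1 = 3 := by have := hσ.1; omega
      exact ⟨fun hm => (hσ.2 h3).1 (hle.mono hm), fun hm => (hσ.2 h3).2 (hle.anti hm)⟩
  · intro π hπ
    by_cases h6 : π.1 = 6
    · have h1 := hπ.2 h6
      rw [not_monotone_not_antitone_iff_exists_lt_lt] at h1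
      obtain ⟨a, b, c, hab, hbc, h1⟩ := h1
      obtain ⟨σ, hσ, f, hr, hf⟩ := exists_pat π {a, b, c}
      have hcard : ({a, b, c} : Finset (Fin π.1)).card = 3 := by
        rw [Finset.card_eq_three]
        exact ⟨a, b, c, hab.ne, (hab.trans hbc).ne, hbc.ne, rfl⟩
      rw [hcard] at hσ
      have hmem : ∀ x ∈ ({a, b, c} : Finset (Fin π.1)), ∃ i, f i = x := by
        intro x hx
        have : x ∈ Set.range f := by rw [hr]; exact hx
        exact this
      obtain ⟨i, hi⟩ := hmem a (by simp)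
      obtain ⟨j, hj⟩ := hmem b (by simp)
      obtain ⟨k, hk⟩ := hmem c (by simp)
      have hij : i < j := by rw [← f.lt_iff_lt, hi, hj]; exact hab
      have hjk : j < k := by rw [← f.lt_iff_lt, hk, hj]; exact hbc
      have hnm : ¬ Monotone σ.2 ∧ ¬ Antitone σ.2 := by
        rw [not_monotone_not_antitone_iff_exists_lt_lt]
        refine ⟨i, j, k, hij, hjk, ?_⟩
        rw [hf, hf, hf, hf, hi, hj, hk]
        exact h1
      exact peel G3 3 π σ ⟨by omega, fun _ => hnm⟩ ⟨f, hf⟩ (by omega)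
    · obtain ⟨σ, hσ, f, -, hf⟩ := exists_pat_card π Finset.univ (min π.1 2) (by simp)
      have := hπ.1
      exact peel G3 3 π σ ⟨by omega, fun h => by omega⟩ ⟨f, hf⟩ (by omega)

lemma up_pair (π : PP) (d e : Fin π.1) (h : d < e) (hlt : π.2 d < π.2 e) :
    ∃ σ ∈ G12, σ.1 = 2 ∧ ∃ f : Fin σ.1 ↪o Fin π.1, (∀ i, f i = d ∨ f i = e) ∧ Occ σ π f := by
  refine ⟨⟨2, 1⟩, ⟨le_rfl, fun i j hij => hij⟩, rfl, OrderEmbedding.ofStrictMono ![d, e] ?_, ?_, ?_⟩
  · intro i j hij
    fin_cases i <;> fin_cases j <;> simp_all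
  · intro i
    change ![d, e] i = d ∨ ![d, e] i = e
    fin_cases i <;> simp
  · intro i j
    change _ ↔ π.2 (![d, e] i) < π.2 (![d, e] j)
    fin_cases i <;> fin_cases j <;> simp [hlt, hlt.le]

lemma down_pair (π : PP) (d e : Fin π.1) (h : d < e) (hlt : π.2 e < π.2 d) :
    ∃ σ ∈ G21, σ.1 = 2 ∧ ∃ f : Fin σ.1 ↪o Fin π.1, (∀ i, f i = d ∨ f i = e) ∧ Occ σ π f := by
  refine ⟨⟨2, Fin.revPerm⟩, ⟨le_rfl, fun i j hij => by simpa using hij⟩, rfl,
    OrderEmbedding.ofStrictMono ![d, e] ?_, ?_, ?_⟩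
  · intro i j hij
    fin_cases i <;> fin_cases j <;> simp_all
  · intro i
    change ![d, e] i = d ∨ ![d, e] i = e
    fin_cases i <;> simp
  · intro i j
    change _ ↔ π.2 (![d, e] i) < π.2 (![d, e] j)
    fin_cases i <;> fin_cases j <;> simp [hlt, hlt.le]

lemma ne3 {α : Type} {x y a b c : α} (hx : x ≠ a ∧ x ≠ b ∧ x ≠ c) (hy : y = a ∨ y = b ∨ y = c) :
    x ≠ y := by
  rintro rfl
  tauto

lemma fact2 : (merge G1)^[2] (merge G12 G21) = E := by
  apply Set.Subset.antisymm
  · intro π hπ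
    obtain ⟨ρ, hρ, hle, hc⟩ := mem_range_iter hπ
    obtain ⟨σ, hσ, τ, hτ, hσ', hτ', hc'⟩ := merge_le hρ
    have h1 := hσ.1
    have h2 := hτ.1
    refine ⟨by omega, fun h6 => ⟨fun hm => ?_, fun hm => ?_⟩⟩
    · have h3 : τ.1 = 2 := by omega
      have h4 := (hτ'.trans hle).mono hm
      have h5 := hτ.2
      have h6 := (h4.strictMono_of_injective τ.2.injective)
        (a := ⟨0, by omega⟩) (b := ⟨1, by omega⟩) (by simp [Fin.lt_def])
      have h7 := h5 (a := ⟨0, by omega⟩) (b := ⟨1, by omega⟩) (by simp [Fin.le_def])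
      exact absurd h7 (not_le.2 h6)
    · have h3 : σ.1 = 2 := by omega
      have h4 := (hσ'.trans hle).anti hm
      have h5 := hσ.2
      have h6 := (h4.strictAnti_of_injective σ.2.injective)
        (a := ⟨0, by omega⟩) (b := ⟨1, by omega⟩) (by simp [Fin.lt_def])
      have h7 := h5 (a := ⟨0, by omega⟩) (b := ⟨1, by omega⟩) (by simp [Fin.le_def])
      exact absurd h7 (not_le.2 h6)
  · intro π hπ
    by_cases h6 : π.1 = 6
    · have h1 := hπ.2 h6
      rw [not_monotone_not_antitone_iff_exists_lt_lt] at h1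
      obtain ⟨a, b, c, hab, hbc, h1⟩ := h1
      have hcard : 2 ≤ ({a, b, c}ᶜ : Finset (Fin π.1)).card := by
        rw [Finset.card_compl, Fintype.card_fin]
        have := Finset.card_le_three (a := a) (b := b) (c := c)
        omega
      obtain ⟨S, hS1, hS2⟩ := Finset.exists_subset_card_eq hcard
      obtain ⟨d, e, hde, hS⟩ : ∃ d e, d < e ∧ S = {d, e} := by
        rw [Finset.card_eq_two] at hS2
        obtain ⟨x, y, hxy, rfl⟩ := hS2
        rcases lt_or_gt_of_ne hxy with h | h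
        · exact ⟨x, y, h, rfl⟩
        · exact ⟨y, x, h, Finset.pair_comm x y⟩
      subst hS
      have hd : d ≠ a ∧ d ≠ b ∧ d ≠ c := by
        have := hS1 (Finset.mem_insert_self d _)
        simpa using this
      have he : e ≠ a ∧ e ≠ b ∧ e ≠ c := by
        have := hS1 (Finset.mem_insert_of_mem (Finset.mem_singleton_self e))
        simpa using this
      have hup : ∃ x y, x < y ∧ π.2 x < π.2 y ∧ (x = a ∨ x = b ∨ x = c) ∧
          (y = a ∨ y = b ∨ y = c) := by
        rcases h1 with h1 | h1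
        · exact ⟨a, b, hab, h1.1, by simp, by simp⟩
        · exact ⟨b, c, hbc, h1.2, by simp, by simp⟩
      have hdn : ∃ x y, x < y ∧ π.2 y < π.2 x ∧ (x = a ∨ x = b ∨ x = c) ∧
          (y = a ∨ y = b ∨ y = c) := by
        rcases h1 with h1 | h1
        · exact ⟨b, c, hbc, h1.2, by simp, by simp⟩
        · exact ⟨a, b, hab, h1.1, by simp, by simp⟩
      have hne : π.2 d ≠ π.2 e := fun h => hde.ne (π.2.injective h)
      rcases lt_or_gt_of_ne hne with hlt | hlt
      · obtain ⟨x, y, hxy, hxy2, hx, hy⟩ := hdn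
        obtain ⟨σ, hσ, hc1, f, hf, hof⟩ := up_pair π d e hde hlt
        obtain ⟨τ, hτ, hc2, g, hg, hog⟩ := down_pair π x y hxy hxy2
        obtain ⟨ρ, hρ, hc3, hle⟩ := merge_of_disjoint hof hog hσ hτ (by
          intro i j hij
          rcases hf i with h | h <;> rcases hg j with h' | h' <;> rw [h, h'] at hij
          · exact ne3 hd hx hij
          · exact ne3 hd hy hij
          · exact ne3 he hx hij
          · exact ne3 he hy hij)
        exact peel _ 2 π ρ hρ hle (by omega)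
      · obtain ⟨x, y, hxy, hxy2, hx, hy⟩ := hup
        obtain ⟨σ, hσ, hc1, f, hf, hof⟩ := up_pair π x y hxy hxy2
        obtain ⟨τ, hτ, hc2, g, hg, hog⟩ := down_pair π d e hde hlt
        obtain ⟨ρ, hρ, hc3, hle⟩ := merge_of_disjoint hof hog hσ hτ (by
          intro i j hij
          rcases hf i with h | h <;> rcases hg j with h' | h' <;> rw [h, h'] at hij
          · exact ne3 hd hx hij.symm
          · exact ne3 he hx hij.symm
          · exact ne3 hd hy hij.symm
          · exact ne3 he hy hij.symm)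
        exact peel _ 2 π ρ hρ hle (by omega)
    · have h5 := hπ.1
      classical
      obtain ⟨σ, hσ, f, -, hf⟩ := exists_pat_card π Finset.univ (min π.1 2) (by simp)
      obtain ⟨τ, hτ, g, hg, hog⟩ := exists_pat_card π (Finset.univ.map f.toEmbedding)ᶜ
        (min 1 (π.1 - min π.1 2)) (by
          rw [Finset.card_compl, Finset.card_map, Finset.card_univ, Fintype.card_fin,
            Fintype.card_fin, hσ]
          exact min_le_right _ _)
      have hg' : ∀ i j, f i ≠ g j := by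
        intro i j hij
        have := hg j
        rw [← hij] at this
        simp at this
      have hτ1 : τ.1 ≤ 1 := by omega
      have hτm : Monotone τ.2 := by
        intro i j _
        have : i = j := Fin.ext (by have := i.2; have := j.2; omega)
        rw [this]
      have hτa : Antitone τ.2 := by
        intro i j _
        have : i = j := Fin.ext (by have := i.2; have := j.2; omega)
        rw [this]
      rcases mono_or_anti (σ := σ) (by omega) with hm | hm
      · obtain ⟨ρ, hρ, hc3, hle⟩ := merge_of_disjoint hf hog (A := G12) (B := G21)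
          ⟨by omega, hm⟩ ⟨by omega, hτa⟩ hg'
        exact peel _ 2 π ρ hρ hle (by omega)
      · obtain ⟨ρ, hρ, hc3, hle⟩ := merge_of_disjoint hog hf (A := G12) (B := G21)
          ⟨by omega, hτm⟩ ⟨by omega, hm⟩ (fun i j => (hg' j i).symm)
        exact peel _ 2 π ρ hρ hle (by omega)

/-! ### Lengths, and the conclusion -/

/-- the direct sum -/
def dsum (σ τ : PP) : PP := ⟨σ.1 + τ.1, finSumFinEquiv.permCongr (Equiv.sumCongr σ.2 τ.2)⟩

lemma dsum_left (σ τ : PP) (i : Fin σ.1) :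
    (dsum σ τ).2 (Fin.castAdd τ.1 i) = Fin.castAdd τ.1 (σ.2 i) := by
  change finSumFinEquiv (Equiv.sumCongr σ.2 τ.2 (finSumFinEquiv.symm (Fin.castAdd τ.1 i))) = _
  rw [finSumFinEquiv_symm_apply_castAdd]
  rfl

lemma dsum_right (σ τ : PP) (i : Fin τ.1) :
    (dsum σ τ).2 (Fin.natAdd σ.1 i) = Fin.natAdd σ.1 (τ.2 i) := by
  change finSumFinEquiv (Equiv.sumCongr σ.2 τ.2 (finSumFinEquiv.symm (Fin.natAdd σ.1 i))) = _
  rw [finSumFinEquiv_symm_apply_natAdd]
  rfl

lemma dsum_mem {A B : Set PP} {σ τ : PP} (hσ : σ ∈ A) (hτ : τ ∈ B) : dsum σ τ ∈ merge A B := by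
  refine ⟨σ, hσ, τ, hτ, Fin.castAddOrderEmb τ.1, Fin.natAddOrderEmb σ.1, ?_, ?_, ?_⟩
  · intro i j
    change _ ↔ (dsum σ τ).2 (Fin.castAdd τ.1 i) < (dsum σ τ).2 (Fin.castAdd τ.1 j)
    rw [dsum_left, dsum_left]
    exact Iff.rfl
  · intro i j
    change _ ↔ (dsum σ τ).2 (Fin.natAdd σ.1 i) < (dsum σ τ).2 (Fin.natAdd σ.1 j)
    rw [dsum_right, dsum_right]
    change (τ.2 i : ℕ) < (τ.2 j : ℕ) ↔ σ.1 + (τ.2 i : ℕ) < σ.1 + (τ.2 j : ℕ)
    omega
  · ext x
    simp only [Set.mem_range, Set.mem_compl_iff]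
    refine Fin.addCases (fun i => ?_) (fun i => ?_) x
    · constructor
      · rintro ⟨j, hj⟩
        have h1 := congrArg Fin.val hj
        have h2 : σ.1 + (j : ℕ) = (i : ℕ) := h1
        have h3 := i.2
        omega
      · intro h
        exact absurd ⟨i, rfl⟩ h
    · constructor
      · rintro - ⟨j, hj⟩
        have h1 := congrArg Fin.val hj
        have h2 : (j : ℕ) = σ.1 + (i : ℕ) := h1
        have h3 := j.2
        omega
      · intro _
        exact ⟨i, rfl⟩

/-- `N` is the greatest length of a member of `A` -/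
def HasLen (A : Set PP) (N : ℕ) : Prop := (∀ π ∈ A, π.1 ≤ N) ∧ ∃ π ∈ A, π.1 = N

lemma HasLen.merge {A B : Set PP} {a b : ℕ} (hA : HasLen A a) (hB : HasLen B b) :
    HasLen (merge A B) (a + b) := by
  refine ⟨fun π hπ => ?_, ?_⟩
  · obtain ⟨σ, hσ, τ, hτ, -, -, hc⟩ := merge_le hπ
    have := hA.1 σ hσ
    have := hB.1 τ hτ
    omega
  · obtain ⟨σ, hσ, h1⟩ := hA.2
    obtain ⟨τ, hτ, h2⟩ := hB.2
    exact ⟨dsum σ τ, dsum_mem hσ hτ, by rw [← h1, ← h2]; rfl⟩

lemma splits_of_len {A B : Set PP} {a b : ℕ} (cA : IsClass A) (cB : IsClass B) (hA : HasLen A a)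
    (hB : HasLen B b) (ha : 0 < a) (hb : 0 < b) : Splits (merge A B) A B := by
  obtain ⟨π, hπ, hl⟩ := (hA.merge hB).2
  refine ⟨cA, cB, ⟨subset_merge_left cB, fun h => ?_⟩, ⟨subset_merge_right cA, fun h => ?_⟩, rfl⟩
  · have := hA.1 π (h hπ)
    omega
  · have := hB.1 π (h hπ)
    omega

lemma swap_mem : (⟨3, Equiv.swap 0 1⟩ : PP) ∈ G3 := by
  refine ⟨le_rfl, fun _ => ⟨fun h => ?_, fun h => ?_⟩⟩
  · have := h (a := (0 : Fin 3)) (b := (1 : Fin 3)) (by decide)
    revert this
    decide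
  · have := h (a := (1 : Fin 3)) (b := (2 : Fin 3)) (by decide)
    revert this
    decide

lemma len_G1 : HasLen G1 1 := ⟨fun _ h => h, ⟨1, 1⟩, Nat.le_refl 1, rfl⟩
lemma len_G12 : HasLen G12 2 := ⟨fun _ h => h.1, ⟨2, 1⟩, ⟨le_rfl, fun _ _ h => h⟩, rfl⟩
lemma len_G21 : HasLen G21 2 :=
  ⟨fun _ h => h.1, ⟨2, Fin.revPerm⟩, ⟨le_rfl, fun _ _ h => by simpa using h⟩, rfl⟩
lemma len_G3 : HasLen G3 3 := ⟨fun _ h => h.1, _, swap_mem, rfl⟩

lemma split1 : Splitting E ({G1} ∪ ({G1} ∪ ({G1} ∪ {G3}))) := by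
  have c1 : IsClass (merge G1 G3) := merge_class class_G1 class_G3
  have c2 : IsClass (merge G1 (merge G1 G3)) := merge_class class_G1 c1
  have l1 := len_G1.merge len_G3
  have l2 := len_G1.merge l1
  have h : E = merge G1 (merge G1 (merge G1 G3)) := fact1.symm
  rw [h]
  refine .node _ _ _ _ _ (splits_of_len class_G1 c2 len_G1 l2 (by norm_num) (by norm_num))
    (.leaf _ irr_G1) ?_
  refine .node _ _ _ _ _ (splits_of_len class_G1 c1 len_G1 l1 (by norm_num) (by norm_num))
    (.leaf _ irr_G1) ?_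
  exact .node _ _ _ _ _ (splits_of_len class_G1 class_G3 len_G1 len_G3 (by norm_num)
    (by norm_num)) (.leaf _ irr_G1) (.leaf _ irr_G3)

lemma split2 : Splitting E ({G1} ∪ ({G1} ∪ ({G12} ∪ {G21}))) := by
  have c1 : IsClass (merge G12 G21) := merge_class class_G12 class_G21
  have c2 : IsClass (merge G1 (merge G12 G21)) := merge_class class_G1 c1
  have l1 := len_G12.merge len_G21
  have l2 := len_G1.merge l1
  have h : E = merge G1 (merge G1 (merge G12 G21)) := fact2.symm
  rw [h]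
  refine .node _ _ _ _ _ (splits_of_len class_G1 c2 len_G1 l2 (by norm_num) (by norm_num))
    (.leaf _ irr_G1) ?_
  refine .node _ _ _ _ _ (splits_of_len class_G1 c1 len_G1 l1 (by norm_num) (by norm_num))
    (.leaf _ irr_G1) ?_
  exact .node _ _ _ _ _ (splits_of_len class_G12 class_G21 len_G12 len_G21 (by norm_num)
    (by norm_num)) (.leaf _ irr_G12) (.leaf _ irr_G21)

lemma class_E : IsClass E := by
  rw [← fact1]
  exact iter_class class_G3 3

lemma top : Splits (merge E Inc) E Inc := by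
  refine ⟨class_E, class_Inc, ⟨subset_merge_left class_Inc, fun h => ?_⟩,
    ⟨subset_merge_right class_E, fun h => ?_⟩, rfl⟩
  · have h1 : (⟨7, 1⟩ : PP) ∈ merge E Inc := subset_merge_right class_E (fun i j hij => hij)
    have h2 := (h h1).1
    norm_num at h2
  · have h1 : (⟨3, Equiv.swap 0 1⟩ : PP) ∈ merge E Inc :=
      subset_merge_left class_Inc ⟨by norm_num, fun h => by norm_num at h⟩
    exact (swap_mem.2 rfl).1 (h h1)

/-- There is an infinite permutation class with two different irreducible exact-splittings. -/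
theorem result : ∃ C : Set PP, IsClass C ∧ C.Infinite ∧
    ∃ s t : Set (Set PP), Splitting C s ∧ Splitting C t ∧ s ≠ t := by
  refine ⟨merge E Inc, merge_class class_E class_Inc, ?_, _, _,
    .node _ _ _ _ _ top split1 (.leaf _ irr_Inc), .node _ _ _ _ _ top split2 (.leaf _ irr_Inc), ?_⟩
  · have h1 : (Set.range (fun n : ℕ => (⟨n, 1⟩ : PP))).Infinite := by
      apply Set.infinite_range_of_injective
      intro a b hab
      exact congrArg Sigma.fst hab
    refine h1.mono ?_
    rintro _ ⟨n, rfl⟩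
    exact subset_merge_right class_E (fun i j hij => hij)
  · intro h
    have h1 : G3 ∈ (({G1} ∪ ({G1} ∪ ({G1} ∪ {G3}))) ∪ {Inc} : Set (Set PP)) := by simp
    rw [h] at h1
    have n1 : G3 ≠ G1 := by
      intro h; have := swap_mem; rw [h] at this; exact absurd this (by simp [G1])
    have n2 : G3 ≠ G12 := by
      intro h; have := swap_mem; rw [h] at this; exact absurd this.1 (by norm_num)
    have n3 : G3 ≠ G21 := by
      intro h; have := swap_mem; rw [h] at this; exact absurd this.1 (by norm_num)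
    have n4 : G3 ≠ Inc := by
      intro h; have := swap_mem; rw [h] at this; exact (swap_mem.2 rfl).1 this
    simp only [Set.mem_union, Set.mem_singleton_iff] at h1
    tauto

end Pool.Agent.Results.MP_673260_co.NotUnique
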